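import Pool.Agent.H946R3.Main2

/-!
# Periodic half spaces are never noise stability maximisers in dimension at least three

For every `n ≥ 3` and every `ρ` with `1/2 < ρ < 1` there is a periodic set whose noise stability
is strictly larger than the noise stability of every periodic half space.
-/

open MeasureTheory ProbabilityTheory
open scoped Real NNReal

namespace Pool.Agent.Results.MP_9b0515_pr.HalfSpacesNotOptimal

/-- The standard Gaussian measure on `ℝ^n`: product of `n` standard normal laws. -/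
noncomputable def stdGauss (n : ℕ) : Measure (Fin n → ℝ) :=
  Measure.pi fun _ => gaussianReal 0 1

/-- Noise stability `P(X ∈ A, ρ X + √(1-ρ²) Y ∈ A)`, `X, Y` independent standard Gaussian. -/
noncomputable def noiseStability (n : ℕ) (ρ : ℝ) (A : Set (Fin n → ℝ)) : ℝ :=
  (((stdGauss n).prod (stdGauss n))
    {p | p.1 ∈ A ∧ ρ • p.1 + √(1 - ρ ^ 2) • p.2 ∈ A}).toReal

/-- Periodic sets: `Ω + v_i = Ωᶜ` for every standard basis vector `v_i` and `-Ω = Ωᶜ`
(equalities up to Lebesgue null sets; the exact equality `-Ω = Ωᶜ` is impossible at `0`). -/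
def IsPeriodicSet (n : ℕ) (Ω : Set (Fin n → ℝ)) : Prop :=
  MeasurableSet Ω ∧
  (∀ i : Fin n, ((fun x : Fin n → ℝ => x + Pi.single i 1) '' Ω) =ᵐ[volume] Ωᶜ) ∧
  ((fun x : Fin n → ℝ => -x) '' Ω) =ᵐ[volume] Ωᶜ

/-- Periodic half spaces: `{x | sin (π (ε₁ x₁ + ⋯ + εₙ xₙ)) ≥ 0}` with signs `ε_i = ±1`. -/
def IsPeriodicHalfSpace (n : ℕ) (B : Set (Fin n → ℝ)) : Prop :=
  ∃ ε : Fin n → ℝ, (∀ i, ε i = 1 ∨ ε i = -1) ∧
    B = {x | 0 ≤ Real.sin (π * ∑ i, ε i * x i)}

open Pool.Agent.H946R3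

lemma stdGauss_eq (n : ℕ) : stdGauss n = gam n := rfl

/-- Indicator with values `±1`. -/
noncomputable def pm {n : ℕ} (A : Set (Fin n → ℝ)) (x : Fin n → ℝ) : ℝ :=
  open Classical in if x ∈ A then 1 else -1

lemma measurable_pm {n : ℕ} {A : Set (Fin n → ℝ)} (hA : MeasurableSet A) :
    Measurable (pm A) := by
  unfold pm
  exact Measurable.ite hA measurable_const measurable_const

lemma abs_pm_le {n : ℕ} (A : Set (Fin n → ℝ)) (x : Fin n → ℝ) : |pm A x| ≤ 1 := by
  unfold pm; split_ifs <;> simp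

lemma stability_eq (n : ℕ) (hn : 0 < n) {ρ : ℝ} (h0 : 0 ≤ ρ) (h1 : ρ ≤ 1)
    {A : Set (Fin n → ℝ)} (hA : MeasurableSet A) (hz : ∫ x, pm A x ∂(gam n) = 0) :
    noiseStability n ρ A = (1 + Q n ρ (pm A) (pm A)) / 4 := by
  have mA := measurable_pm hA
  have bA := abs_pm_le A
  have mS : MeasurableSet {p : (Fin n → ℝ) × (Fin n → ℝ) |
      p.1 ∈ A ∧ ρ • p.1 + √(1 - ρ ^ 2) • p.2 ∈ A} := by
    apply MeasurableSet.inter
    · exact measurable_fst hA
    · have hm : Measurable (fun p : (Fin n → ℝ) × (Fin n → ℝ) =>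
        ρ • p.1 + √(1 - ρ ^ 2) • p.2) := by fun_prop
      exact hm hA
  have e1 : noiseStability n ρ A = ∫ p : (Fin n → ℝ) × (Fin n → ℝ),
      ({p : (Fin n → ℝ) × (Fin n → ℝ) |
      p.1 ∈ A ∧ ρ • p.1 + √(1 - ρ ^ 2) • p.2 ∈ A}).indicator (fun _ => (1 : ℝ)) p
        ∂((gam n).prod (gam n)) := by
    rw [integral_indicator mS, setIntegral_const, smul_eq_mul, mul_one]
    rfl
  have m1 : Measurable (fun _ : Fin n → ℝ => (1 : ℝ)) := measurable_const
  have b1 : ∀ x : Fin n → ℝ, |(fun _ : Fin n → ℝ => (1 : ℝ)) x| ≤ 1 := by intro x; simp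
  have q11 : Q n ρ (fun _ => 1) (fun _ => 1) = 1 := by
    unfold Q; simp
  have qA1 : Q n ρ (pm A) (fun _ => 1) = 0 := by
    have := Q_sum n hn (ρ := ρ) (by nlinarith) (f := pm A) (A := fun _ => (1 : ℝ)) mA
      measurable_const bA (CA := 1) (fun _ => by simp)
    rw [this]
    have hG : ∀ s, GG n ρ (fun _ => (1 : ℝ)) s = 1 := by
      intro s
      unfold GG
      simp
    simp_rw [hG, mul_one]
    exact hz
  have q1A : Q n ρ (fun _ => 1) (pm A) = 0 := by
    rw [Q_symm n h0 h1 m1 mA b1 bA, qA1]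
  have e2 : ∀ p : (Fin n → ℝ) × (Fin n → ℝ), ({p : (Fin n → ℝ) × (Fin n → ℝ) |
      p.1 ∈ A ∧ ρ • p.1 + √(1 - ρ ^ 2) • p.2 ∈ A}).indicator (fun _ => (1 : ℝ)) p
      = (1 / 4) * ((1 * 1 + pm A p.1 * 1) + (1 * pm A (ρ • p.1 + √(1 - ρ ^ 2) • p.2)
        + pm A p.1 * pm A (ρ • p.1 + √(1 - ρ ^ 2) • p.2))) := by
    intro p
    set S : Set ((Fin n → ℝ) × (Fin n → ℝ)) := {p : (Fin n → ℝ) × (Fin n → ℝ) |
      p.1 ∈ A ∧ ρ • p.1 + √(1 - ρ ^ 2) • p.2 ∈ A} with hS
    unfold pm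
    by_cases ha : p.1 ∈ A <;> by_cases hb : ρ • p.1 + √(1 - ρ ^ 2) • p.2 ∈ A
    · have hp : p ∈ S := ⟨ha, hb⟩
      rw [Set.indicator_of_mem hp, if_pos ha, if_pos hb]; norm_num
    · have hp : p ∉ S := fun h => hb h.2
      rw [Set.indicator_of_notMem hp, if_pos ha, if_neg hb]
      norm_num
    · have hp : p ∉ S := fun h => ha h.1
      rw [Set.indicator_of_notMem hp, if_neg ha, if_pos hb]
      norm_num
    · have hp : p ∉ S := fun h => ha h.1
      rw [Set.indicator_of_notMem hp, if_neg ha, if_neg hb]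
      norm_num
  rw [e1]
  simp_rw [e2]
  rw [integral_const_mul]
  have i11 := integrable_Q n ρ m1 m1 b1 b1
  have iA1 := integrable_Q n ρ mA m1 bA b1
  have i1A := integrable_Q n ρ m1 mA b1 bA
  have iAA := integrable_Q n ρ mA mA bA bA
  have s1 : ∫ p : (Fin n → ℝ) × (Fin n → ℝ),
      ((1 * 1 + pm A p.1 * 1) + (1 * pm A (ρ • p.1 + √(1 - ρ ^ 2) • p.2)
        + pm A p.1 * pm A (ρ • p.1 + √(1 - ρ ^ 2) • p.2))) ∂((gam n).prod (gam n))
      = (Q n ρ (fun _ => 1) (fun _ => 1) + Q n ρ (pm A) (fun _ => 1))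
        + (Q n ρ (fun _ => 1) (pm A) + Q n ρ (pm A) (pm A)) := by
    unfold Q
    rw [← integral_add i11 iA1, ← integral_add i1A iAA]
    exact integral_add (i11.add iA1) (i1A.add iAA)
  rw [s1, q11, qA1, q1A]
  ring

/-- The half space with all signs `+1`. -/
def B1 (n : ℕ) : Set (Fin n → ℝ) := {x | 0 ≤ Real.sin (π * ∑ i, x i)}

lemma measurable_B1 (n : ℕ) : MeasurableSet (B1 n) := by
  unfold B1
  exact measurableSet_le measurable_const (by fun_prop)

lemma pm_B1 (n : ℕ) (x : Fin n → ℝ) : pm (B1 n) x = H946R3.sq (∑ i, x i) := by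
  unfold pm B1 H946R3.sq
  rfl

/-- Noise stability is invariant under coordinate reflections. -/
lemma stability_reflect (n : ℕ) (ρ : ℝ) (ε : Fin n → ℝ) (hε : ∀ i, ε i = 1 ∨ ε i = -1)
    {A : Set (Fin n → ℝ)} (hA : MeasurableSet A) :
    noiseStability n ρ {x | (fun i => ε i * x i) ∈ A} = noiseStability n ρ A := by
  have h1 : MeasurePreserving (fun (x : Fin n → ℝ) (i : Fin n) => ε i * (x i))
      (gam n) (gam n) := by
    unfold gam
    refine measurePreserving_pi _ _ fun i => ⟨by fun_prop, ?_⟩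
    have := gaussianReal_map_const_mul (μ := 0) (v := 1) (ε i)
    rw [this]
    congr 1
    · simp
    · ext
      rcases hε i with h | h <;> simp [h]
  have h2 : MeasurePreserving (fun p : (Fin n → ℝ) × (Fin n → ℝ) =>
      ((fun i => ε i * p.1 i), (fun i => ε i * p.2 i)))
      ((gam n).prod (gam n)) ((gam n).prod (gam n)) := h1.prod h1
  have mS : MeasurableSet {p : (Fin n → ℝ) × (Fin n → ℝ) |
      p.1 ∈ A ∧ ρ • p.1 + √(1 - ρ ^ 2) • p.2 ∈ A} := by
    apply MeasurableSet.inter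
    · exact measurable_fst hA
    · have hm : Measurable (fun p : (Fin n → ℝ) × (Fin n → ℝ) =>
        ρ • p.1 + √(1 - ρ ^ 2) • p.2) := by fun_prop
      exact hm hA
  unfold noiseStability
  rw [stdGauss_eq, ← h2.measure_preimage mS.nullMeasurableSet]
  congr 2
  ext p
  have e : (fun i => ε i * (ρ • p.1 + √(1 - ρ ^ 2) • p.2) i)
      = ρ • (fun i => ε i * p.1 i) + √(1 - ρ ^ 2) • (fun i => ε i * p.2 i) := by
    ext i
    simp only [Pi.add_apply, Pi.smul_apply, smul_eq_mul]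
    ring
  change ((fun i => ε i * p.1 i) ∈ A ∧ (fun i => ε i * (ρ • p.1 + √(1 - ρ ^ 2) • p.2) i) ∈ A) ↔ _
  rw [e]
  rfl

lemma stability_halfSpace (n : ℕ) (ρ : ℝ) {B : Set (Fin n → ℝ)} (hB : IsPeriodicHalfSpace n B) :
    noiseStability n ρ B = noiseStability n ρ (B1 n) := by
  obtain ⟨ε, hε, rfl⟩ := hB
  exact stability_reflect n ρ ε hε (measurable_B1 n)

/-- The improved set: flip the half space on `E`. -/
def flip {n : ℕ} (E : Set (Fin n → ℝ)) : Set (Fin n → ℝ) := {x | x ∈ B1 n ↔ x ∉ E}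

lemma measurable_flip {n : ℕ} {E : Set (Fin n → ℝ)} (hE : MeasurableSet E) :
    MeasurableSet (flip E) := by
  have : flip E = (B1 n ∩ Eᶜ) ∪ ((B1 n)ᶜ ∩ E) := by
    ext x
    simp only [flip, Set.mem_ofPred_eq, Set.mem_union, Set.mem_inter_iff, Set.mem_compl_iff]
    tauto
  rw [this]
  exact ((measurable_B1 n).inter hE.compl).union ((measurable_B1 n).compl.inter hE)

lemma mem_B1_sub (n : ℕ) (i : Fin n) {x : Fin n → ℝ} (hx : Real.sin (π * ∑ i, x i) ≠ 0) :
    (x - Pi.single i 1 ∈ B1 n) ↔ x ∉ B1 n := by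
  have e1 : ∑ j, (x - (Pi.single i (1 : ℝ) : Fin n → ℝ)) j = ∑ j, x j - 1 := by
    simp [Finset.sum_sub_distrib]
  change (0 ≤ Real.sin (π * ∑ j, (x - (Pi.single i (1 : ℝ) : Fin n → ℝ)) j)) ↔
    ¬ (0 ≤ Real.sin (π * ∑ i, x i))
  rw [e1, show π * (∑ j, x j - 1) = π * ∑ j, x j - π by ring, Real.sin_sub_pi]
  constructor
  · intro h h2
    exact hx (le_antisymm (by linarith) h2)
  · intro h
    push Not at h
    linarith

lemma mem_B1_neg (n : ℕ) {x : Fin n → ℝ} (hx : Real.sin (π * ∑ i, x i) ≠ 0) :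
    (-x ∈ B1 n) ↔ x ∉ B1 n := by
  have e1 : ∑ j, (-x) j = -∑ j, x j := by simp
  change (0 ≤ Real.sin (π * ∑ j, (-x) j)) ↔ ¬ (0 ≤ Real.sin (π * ∑ i, x i))
  rw [e1, show π * -∑ j, x j = -(π * ∑ j, x j) by ring, Real.sin_neg]
  constructor
  · intro h h2
    exact hx (le_antisymm (by linarith) h2)
  · intro h
    push Not at h
    linarith

lemma isPeriodic_flip (n : ℕ) (hn : 0 < n) {E : Set (Fin n → ℝ)} (hE : MeasurableSet E)
    (h1 : ∀ (i : Fin n) (x : Fin n → ℝ), (x - Pi.single i 1 ∈ E) ↔ x ∈ E)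
    (h2 : ∀ x : Fin n → ℝ, (-x ∈ E) ↔ x ∈ E) : IsPeriodicSet n (flip E) := by
  refine ⟨measurable_flip hE, fun i => ?_, ?_⟩
  · filter_upwards [ae_sin_ne_zero n hn] with x hx
    apply propext
    change x ∈ ((fun x : Fin n → ℝ => x + Pi.single i 1) '' flip E) ↔ x ∈ (flip E)ᶜ
    have e : x ∈ ((fun x : Fin n → ℝ => x + Pi.single i 1) '' flip E)
        ↔ x - Pi.single i 1 ∈ flip E := by
      constructor
      · rintro ⟨y, hy, rfl⟩
        simpa using hy
      · intro h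
        exact ⟨_, h, by simp⟩
    rw [e]
    change ((x - Pi.single i 1 ∈ B1 n) ↔ x - Pi.single i 1 ∉ E) ↔ ¬ (x ∈ B1 n ↔ x ∉ E)
    rw [mem_B1_sub n i hx, h1 i x]
    tauto
  · filter_upwards [ae_sin_ne_zero n hn] with x hx
    apply propext
    change x ∈ ((fun x : Fin n → ℝ => -x) '' flip E) ↔ x ∈ (flip E)ᶜ
    have e : x ∈ ((fun x : Fin n → ℝ => -x) '' flip E) ↔ -x ∈ flip E := by
      constructor
      · rintro ⟨y, hy, rfl⟩
        simpa using hy
      · intro h
        exact ⟨_, h, by simp⟩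
    rw [e]
    change ((-x ∈ B1 n) ↔ -x ∉ E) ↔ ¬ (x ∈ B1 n ↔ x ∉ E)
    rw [mem_B1_neg n hx, h2 x]
    tauto

/-- `±1` indicators of odd sets integrate to zero. -/
lemma integral_pm_flip (n : ℕ) (hn : 0 < n) {E : Set (Fin n → ℝ)} (hE : MeasurableSet E)
    (h2 : ∀ x : Fin n → ℝ, (-x ∈ E) ↔ x ∈ E) : ∫ x, pm (flip E) x ∂(gam n) = 0 := by
  have h := integral_neg_gam n (measurable_pm (measurable_flip hE))
  have e : ∫ x, pm (flip E) (-x) ∂(gam n) = -∫ x, pm (flip E) x ∂(gam n) := by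
    rw [← integral_neg]
    apply integral_congr_ae
    filter_upwards [ae_sin_ne_zero_gam n hn] with x hx
    have : (-x ∈ flip E) ↔ ¬ (x ∈ flip E) := by
      change ((-x ∈ B1 n) ↔ -x ∉ E) ↔ ¬ (x ∈ B1 n ↔ x ∉ E)
      rw [mem_B1_neg n hx, h2 x]
      tauto
    unfold pm
    by_cases hx2 : x ∈ flip E
    · rw [if_neg (by tauto), if_pos hx2]
    · rw [if_pos (by tauto), if_neg hx2]; norm_num
  rw [e] at h
  linarith

/-- **Main theorem.** In every dimension `n ≥ 3` and for every `ρ ∈ (1/2, 1)` some periodic set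
is strictly more noise stable than every periodic half space. -/
theorem result : ∀ n : ℕ, 3 ≤ n → ∀ ρ : ℝ, 1 / 2 < ρ → ρ < 1 →
    ∃ Ω : Set (Fin n → ℝ), IsPeriodicSet n Ω ∧
      ∀ B : Set (Fin n → ℝ), IsPeriodicHalfSpace n B →
        noiseStability n ρ B < noiseStability n ρ Ω := by
  intro n hn ρ h0 h1
  have hn' : 0 < n := by omega
  have hnr : (0 : ℝ) < n := by exact_mod_cast hn'
  have hρ2 : ρ ^ 2 < 1 := by nlinarith
  set v : ℝ≥0 := Real.toNNReal (n * (1 - ρ ^ 2)) with hvdef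
  have hpos : 0 < (n : ℝ) * (1 - ρ ^ 2) := by
    have : 0 < 1 - ρ ^ 2 := by linarith
    positivity
  have hv : (v : ℝ) = n * (1 - ρ ^ 2) := Real.coe_toNNReal _ hpos.le
  have hv0 : v ≠ 0 := by
    have : (v : ℝ) ≠ 0 := by rw [hv]; exact hpos.ne'
    exact_mod_cast this
  let i0 : Fin n := ⟨0, hn'⟩
  obtain ⟨δ, hδ⟩ := weighted_neg n hn i0 h0 h1 v hv hv0
  obtain ⟨t, ht⟩ := exists_level n (measurable_wt n i0 δ) (measurable_hint n ρ v hv0)
    (wt_nonneg n i0 δ) (wt_le n i0 δ) (abs_hint_le n ρ v) hδ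
  set E : Set (Fin n → ℝ) := {x | t < wt n i0 δ x} with hEdef
  have hE : MeasurableSet E := measurableSet_lt measurable_const (measurable_wt n i0 δ)
  have hE1 : ∀ (i : Fin n) (x : Fin n → ℝ), (x - Pi.single i 1 ∈ E) ↔ x ∈ E := by
    intro i x
    change t < wt n i0 δ (x - Pi.single i 1) ↔ t < wt n i0 δ x
    rw [wt_sub_single]
  have hE2 : ∀ x : Fin n → ℝ, (-x ∈ E) ↔ x ∈ E := by
    intro x
    change t < wt n i0 δ (-x) ↔ t < wt n i0 δ x
    rw [wt_neg]
  refine ⟨flip E, isPeriodic_flip n hn' hE hE1 hE2, fun B hB => ?_⟩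
  rw [stability_halfSpace n ρ hB]
  have hEe : MeasurableSet (∅ : Set (Fin n → ℝ)) := MeasurableSet.empty
  have hflip0 : flip (∅ : Set (Fin n → ℝ)) = B1 n := by
    ext x
    simp [flip]
  have hzB : ∫ x, pm (B1 n) x ∂(gam n) = 0 := by
    rw [← hflip0]
    exact integral_pm_flip n hn' hEe (by simp)
  have hzE := integral_pm_flip n hn' hE hE2
  rw [stability_eq n hn' (by linarith) h1.le (measurable_B1 n) hzB,
    stability_eq n hn' (by linarith) h1.le (measurable_flip hE) hzE]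
  -- the difference of the two sign functions
  set g : (Fin n → ℝ) → ℝ := pm (B1 n) with hg
  have mg : Measurable g := measurable_pm (measurable_B1 n)
  set f : (Fin n → ℝ) → ℝ := fun x => -2 * (E.indicator g x) with hf
  have mf : Measurable f := (mg.indicator hE).const_mul _
  have bf : ∀ x, |f x| ≤ 2 := by
    intro x
    rw [hf]
    simp only
    rw [abs_mul]
    by_cases hx : x ∈ E
    · rw [Set.indicator_of_mem hx]
      have := abs_pm_le (B1 n) x
      rw [show |(-2 : ℝ)| = 2 by norm_num]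
      linarith
    · rw [Set.indicator_of_notMem hx]; simp
  have hsum : (fun x => g x + f x) = pm (flip E) := by
    ext x
    rw [hf, hg]
    simp only
    unfold pm
    by_cases hx : x ∈ E
    · rw [Set.indicator_of_mem hx]
      by_cases hb : x ∈ B1 n
      · have : x ∉ flip E := by
          change ¬ (x ∈ B1 n ↔ x ∉ E)
          tauto
        rw [if_pos hb, if_neg this]; norm_num
      · have : x ∈ flip E := by
          change (x ∈ B1 n ↔ x ∉ E)
          tauto
        rw [if_neg hb, if_pos this]; norm_num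
    · rw [Set.indicator_of_notMem hx]
      by_cases hb : x ∈ B1 n
      · have : x ∈ flip E := by
          change (x ∈ B1 n ↔ x ∉ E)
          tauto
        rw [if_pos hb, if_pos this]; norm_num
      · have : x ∉ flip E := by
          change ¬ (x ∈ B1 n ↔ x ∉ E)
          tauto
        rw [if_neg hb, if_neg this]; norm_num
  have hconv := Q_convex n (ρ := ρ) (by linarith) h1.le mf mg bf (abs_pm_le (B1 n))
  rw [hsum] at hconv
  have hQ : 0 < Q n ρ f g := by
    have hgs : g = fun x : Fin n → ℝ => H946R3.sq (∑ i, x i) := by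
      ext x
      exact pm_B1 n x
    rw [hgs, Q_sum n hn' hρ2.le mf measurable_sq bf abs_sq_le]
    have e1 : ∀ x, f x * GG n ρ H946R3.sq (∑ i, x i) = -2 * (E.indicator (hint n ρ v) x) := by
      intro x
      have : GG n ρ H946R3.sq (∑ i, x i) = Gt v (ρ * ∑ i, x i) := rfl
      rw [this, hf]
      simp only
      by_cases hx : x ∈ E
      · rw [Set.indicator_of_mem hx, Set.indicator_of_mem hx, hgs, hint]
        ring
      · rw [Set.indicator_of_notMem hx, Set.indicator_of_notMem hx]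
        ring
    simp_rw [e1]
    rw [integral_const_mul, integral_indicator hE]
    linarith
  linarith

end Pool.Agent.Results.MP_9b0515_pr.HalfSpacesNotOptimal
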